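import Pool.Agent.V11281.FTVS.Basic
import Pool.Agent.V11281.FTVS.Retr

/-!
# The free topological vector space of a closed subspace of a metrizable space

For a closed subset `Y` of a metrizable space `X` the canonical map `V Y → V X` is a topological
embedding. The proof uses a random retraction of `X` onto `Y`, that is, a family of retractions
indexed by `[0,1)` which is continuous in measure.
-/

set_option autoImplicit false

open Set Topology Filter MeasureTheory Pointwise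

namespace Pool.Agent.Results.MP_aab88c_gt.SubspaceEmbedding

open Pool.Agent.V11281.FTVS

universe u

variable {X : Type u} [MetricSpace X] {Y : Set X}

/-- the linear map induced by the retraction `r t` -/
noncomputable def L (r : ℝ → X → Y) (t : ℝ) : V X →ₗ[ℝ] V Y := lift fun x => ι (r t x)

/-- basic neighbourhoods of zero -/
def N (r : ℝ → X → Y) (U : Set (V Y)) (ε : ENNReal) : Set (V X) :=
  {v | volume {t | t ∈ Ico (0 : ℝ) 1 ∧ L r t v ∉ U} < ε}

lemma mem_N_of_subset {r : ℝ → X → Y} {U : Set (V Y)} {ε : ENNReal} {v : V X} (A : Set ℝ)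
    (h : ∀ t ∈ Ico (0 : ℝ) 1, L r t v ∉ U → t ∈ A) (hA : volume A < ε) : v ∈ N r U ε :=
  lt_of_le_of_lt (measure_mono (μ := volume)
    (s := {t | t ∈ Ico (0 : ℝ) 1 ∧ L r t v ∉ U}) (t := A) fun t ht => h t ht.1 ht.2) hA

lemma mem_N_of_imp {r : ℝ → X → Y} {U U' : Set (V Y)} {ε : ENNReal} {v w : V X}
    (h : ∀ t ∈ Ico (0 : ℝ) 1, L r t v ∈ U → L r t w ∈ U') (hv : v ∈ N r U ε) : w ∈ N r U' ε :=
  mem_N_of_subset {t | t ∈ Ico (0 : ℝ) 1 ∧ L r t v ∉ U}
    (fun t ht hw => ⟨ht, fun h' => hw (h t ht h')⟩) hv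

/-- the canonical map -/
noncomputable def j (Y : Set X) : V Y →ₗ[ℝ] V X := lift fun y => ι (y : X)

lemma L_j {r : ℝ → X → Y} (hr : ∀ t, ∀ y : Y, r t y = y) (t : ℝ) (v : V Y) :
    L r t (j Y v) = v := by
  induction v using V_induction with
  | h0 => rw [map_zero, map_zero]
  | hadd x a v ih =>
    rw [map_add, map_add, map_smul, map_smul, ih]
    unfold j L
    rw [lift_ι, lift_ι, hr]

lemma finite_values {r : ℝ → X → Y}
    (hfin : ∀ x, ((fun t => r t x) '' (Ico (0 : ℝ) 1)).Finite) (v : V X) :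
    ((fun t => L r t v) '' (Ico (0 : ℝ) 1)).Finite := by
  induction v using V_induction with
  | h0 =>
    refine (finite_singleton (0 : V Y)).subset ?_
    rintro _ ⟨t, _, rfl⟩
    exact map_zero _
  | hadd x a v ih =>
    refine (Set.Finite.image2 (fun (y : Y) (w : V Y) => a • ι y + w) (hfin x) ih).subset ?_
    rintro _ ⟨t, ht, rfl⟩
    refine ⟨r t x, ⟨t, ht, rfl⟩, L r t v, ⟨t, ht, rfl⟩, ?_⟩
    change a • ι (r t x) + L r t v = L r t (a • ι x + v)
    rw [map_add, map_smul]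
    unfold L
    rw [lift_ι]

/-- the filter basis of the topology of convergence in measure -/
noncomputable def basis (r : ℝ → X → Y)
    (hfin : ∀ x, ((fun t => r t x) '' (Ico (0 : ℝ) 1)).Finite) : ModuleFilterBasis ℝ (V X) where
  sets := {S | ∃ U ∈ 𝓝 (0 : V Y), ∃ ε > 0, S = N r U ε}
  nonempty := ⟨_, univ, univ_mem, 1, one_pos, rfl⟩
  inter_sets := by
    rintro _ _ ⟨U, hU, ε, hε, rfl⟩ ⟨U', hU', ε', hε', rfl⟩
    refine ⟨_, ⟨U ∩ U', inter_mem hU hU', min ε ε', lt_min hε hε', rfl⟩, fun v hv => ⟨?_, ?_⟩⟩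
    · exact mem_N_of_imp (U := U ∩ U') (fun t _ h => h.1)
        (lt_of_lt_of_le (b := min ε ε') hv (min_le_left _ _))
    · exact mem_N_of_imp (U := U ∩ U') (fun t _ h => h.2)
        (lt_of_lt_of_le (b := min ε ε') hv (min_le_right _ _))
  zero' := by
    rintro _ ⟨U, hU, ε, hε, rfl⟩
    change volume _ < ε
    have : {t | t ∈ Ico (0 : ℝ) 1 ∧ L r t 0 ∉ U} = ∅ := by
      ext t
      simp only [mem_ofPred_eq, mem_empty_iff_false, iff_false, not_and, not_not]
      intro _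
      rw [map_zero]
      exact mem_of_mem_nhds hU
    rw [this, measure_empty]
    exact hε
  add' := by
    rintro _ ⟨U, hU, ε, hε, rfl⟩
    have hadd : Tendsto (fun p : V Y × V Y => p.1 + p.2) (𝓝 (0, 0)) (𝓝 0) := by
      have := (continuous_add (M := V Y)).tendsto ((0 : V Y), (0 : V Y))
      simpa using this
    have h1 := hadd hU
    rw [nhds_prod_eq] at h1
    obtain ⟨U1, hU1, U2, hU2, hU12⟩ := Filter.mem_prod_iff.1 h1
    refine ⟨_, ⟨U1 ∩ U2, inter_mem hU1 hU2, ε / 2, ENNReal.half_pos hε.ne', rfl⟩, ?_⟩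
    rintro _ ⟨v, hv, w, hw, rfl⟩
    change volume _ < ε
    refine lt_of_le_of_lt (measure_mono (t := {t | t ∈ Ico (0 : ℝ) 1 ∧ L r t v ∉ U1 ∩ U2} ∪
      {t | t ∈ Ico (0 : ℝ) 1 ∧ L r t w ∉ U1 ∩ U2}) ?_) ?_
    · rintro t ⟨ht, h⟩
      by_contra hcon
      simp only [mem_union, mem_ofPred_eq, not_or, not_and, not_not] at hcon
      apply h
      change L r t (v + w) ∈ U
      rw [map_add]
      exact hU12 (mk_mem_prod (hcon.1 ht).1 (hcon.2 ht).2)
    · refine (measure_union_le _ _).trans_lt ?_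
      calc _ < ε / 2 + ε / 2 := ENNReal.add_lt_add hv hw
        _ = ε := ENNReal.add_halves ε
  neg' := by
    rintro _ ⟨U, hU, ε, hε, rfl⟩
    have h1 : (fun v : V Y => -v) ⁻¹' U ∈ 𝓝 (0 : V Y) := by
      apply (continuous_neg (G := V Y)).continuousAt.preimage_mem_nhds
      rw [neg_zero]
      exact hU
    refine ⟨_, ⟨_, h1, ε, hε, rfl⟩, fun v hv => ?_⟩
    have h3 : -v ∈ N r U ε := by
      refine mem_N_of_imp (U := (fun v : V Y => -v) ⁻¹' U) (v := v) (w := -v)
        (fun t _ h => ?_) hv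
      rw [map_neg]
      exact h
    exact h3
  conj' := by
    rintro x0 _ ⟨U, hU, ε, hε, rfl⟩
    refine ⟨_, ⟨U, hU, ε, hε, rfl⟩, fun v hv => ?_⟩
    change x0 + v + -x0 ∈ N r U ε
    rw [add_neg_cancel_comm]
    exact hv
  smul' := by
    rintro _ ⟨U, hU, ε, hε, rfl⟩
    have hsm : Tendsto (fun p : ℝ × V Y => p.1 • p.2) (𝓝 (0, 0)) (𝓝 0) := by
      have := (continuous_smul (M := ℝ) (X := V Y)).tendsto ((0 : ℝ), (0 : V Y))
      simpa using this
    have h1 := hsm hU
    rw [nhds_prod_eq] at h1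
    obtain ⟨A, hA, W, hW, hAW⟩ := Filter.mem_prod_iff.1 h1
    refine ⟨A, hA, _, ⟨W, hW, ε, hε, rfl⟩, ?_⟩
    rintro _ ⟨a, ha, v, hv, rfl⟩
    have key : ∀ t ∈ Ico (0 : ℝ) 1, L r t v ∈ W → L r t (a • v) ∈ U := by
      intro t _ h
      rw [map_smul]
      exact hAW (show (a, L r t v) ∈ A ×ˢ W from ⟨ha, h⟩)
    have h3 : a • v ∈ N r U ε := mem_N_of_imp (U := W) (v := v) (w := a • v) key hv
    exact h3
  smul_left' := by
    rintro x0 _ ⟨U, hU, ε, hε, rfl⟩
    have h1 : (fun v : V Y => x0 • v) ⁻¹' U ∈ 𝓝 (0 : V Y) := by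
      apply (continuous_const_smul (T := V Y) x0).continuousAt.preimage_mem_nhds
      rw [smul_zero]
      exact hU
    refine ⟨_, ⟨_, h1, ε, hε, rfl⟩, fun v hv => ?_⟩
    have h3 : x0 • v ∈ N r U ε := by
      refine mem_N_of_imp (U := (fun v : V Y => x0 • v) ⁻¹' U) (v := v) (w := x0 • v)
        (fun t _ h => ?_) hv
      rw [map_smul]
      exact h
    exact h3
  smul_right' := by
    rintro m0 _ ⟨U, hU, ε, hε, rfl⟩
    have h1 : ∀ w : V Y, ∀ᶠ a in 𝓝 (0 : ℝ), a • w ∈ U := by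
      intro w
      have h2 : Tendsto (fun a : ℝ => a • w) (𝓝 0) (𝓝 ((0 : ℝ) • w)) :=
        (continuous_id.smul continuous_const).tendsto 0
      rw [zero_smul] at h2
      exact h2 hU
    have h2 : ∀ᶠ a in 𝓝 (0 : ℝ), ∀ w ∈ (fun t => L r t m0) '' (Ico (0 : ℝ) 1), a • w ∈ U :=
      (Filter.eventually_all_finite (finite_values hfin m0)).2 fun w _ => h1 w
    filter_upwards [h2] with a ha
    change volume {t | t ∈ Ico (0 : ℝ) 1 ∧ L r t (a • m0) ∉ U} < ε
    have : {t | t ∈ Ico (0 : ℝ) 1 ∧ L r t (a • m0) ∉ U} = ∅ := by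
      ext t
      simp only [mem_ofPred_eq, mem_empty_iff_false, iff_false, not_and, not_not]
      intro ht
      rw [map_smul]
      exact ha _ ⟨t, ht, rfl⟩
    rw [this, measure_empty]
    exact hε

/-- neighbourhoods of zero in `V X` -/
lemma N_mem_nhds {r : ℝ → X → Y} (hr : ∀ t, ∀ y : Y, r t y = y)
    (hfin : ∀ x, ((fun t => r t x) '' (Ico (0 : ℝ) 1)).Finite)
    (hc : ∀ x0 ∉ Y, ∀ ε > 0, ∀ᶠ x in 𝓝 x0,
      volume {t | t ∈ Ico (0 : ℝ) 1 ∧ r t x ≠ r t x0} < ε)
    (hd : ∀ t ∈ Ico (0 : ℝ) 1, ∀ x, ∀ y ∈ Y, dist (r t x : X) y ≤ 4 * dist x y)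
    {U : Set (V Y)} (hU : U ∈ 𝓝 0) {ε : ENNReal} (hε : 0 < ε) : N r U ε ∈ 𝓝 (0 : V X) := by
  set B := basis r hfin with hB
  have hmem : ∀ {U : Set (V Y)}, U ∈ 𝓝 0 → ∀ {ε : ENNReal}, 0 < ε → N r U ε ∈ B :=
    fun hU _ hε => ⟨_, hU, _, hε, rfl⟩
  have hadm : B.topology ∈ Adm X := by
    refine ⟨B.toAddGroupFilterBasis.isTopologicalAddGroup, B.continuousSMul, ?_⟩
    rw [@continuous_iff_continuousAt _ _ _ B.topology]
    intro x0
    change Tendsto ι (𝓝 x0) (@nhds (V X) B.topology (ι x0))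
    have hbasis := B.toAddGroupFilterBasis.nhds_hasBasis (ι x0)
    refine hbasis.tendsto_right_iff.2 ?_
    rintro _ ⟨U, hU, ε, hε, rfl⟩
    -- it suffices to estimate the difference
    have key : ∀ᶠ x in 𝓝 x0, ι x - ι x0 ∈ N r U ε := by
      by_cases hx0 : x0 ∈ Y
      · have h1 : ∀ᶠ y in 𝓝 (⟨x0, hx0⟩ : Y), ι y - ι (⟨x0, hx0⟩ : Y) ∈ U := by
          have h2 : Tendsto (fun y : Y => ι y - ι (⟨x0, hx0⟩ : Y)) (𝓝 ⟨x0, hx0⟩)
              (𝓝 (ι (⟨x0, hx0⟩ : Y) - ι (⟨x0, hx0⟩ : Y))) :=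
            (continuous_ι.sub continuous_const).tendsto _
          rw [sub_self] at h2
          exact h2 hU
        obtain ⟨δ, hδ, hδU⟩ := Metric.eventually_nhds_iff.1 h1
        have h3 : ∀ᶠ x in 𝓝 x0, dist x x0 < δ / 4 := Metric.ball_mem_nhds x0 (by positivity)
        filter_upwards [h3] with x hx
        refine mem_N_of_subset ∅ (fun t ht hbad => ?_) (by rw [measure_empty]; exact hε)
        apply hbad
        unfold L
        rw [map_sub, lift_ι, lift_ι]
        have h4 : r t x0 = ⟨x0, hx0⟩ := hr t ⟨x0, hx0⟩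
        rw [h4]
        apply hδU
        rw [Subtype.dist_eq]
        have := hd t ht x x0 hx0
        change dist (r t x : X) x0 < δ
        linarith
      · filter_upwards [hc x0 hx0 ε hε] with x hx
        refine mem_N_of_subset {t | t ∈ Ico (0 : ℝ) 1 ∧ r t x ≠ r t x0}
          (fun t ht hbad => ⟨ht, fun h => hbad ?_⟩) hx
        unfold L
        rw [map_sub, lift_ι, lift_ι, h, sub_self]
        exact mem_of_mem_nhds hU
    filter_upwards [key] with x hx
    exact ⟨ι x - ι x0, hx, add_sub_cancel _ _⟩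
  have h1 : (sInf (Adm X) : TopologicalSpace (V X)) ≤ B.topology := sInf_le hadm
  have h2 : N r U ε ∈ @nhds (V X) B.topology 0 :=
    B.toAddGroupFilterBasis.mem_nhds_zero (hmem hU hε)
  exact (nhds_mono h1 : 𝓝 (0 : V X) ≤ @nhds (V X) B.topology 0) h2

/-- the embedding theorem for metric spaces -/
theorem isEmbedding_j (hY : IsClosed Y) : IsEmbedding (j Y) := by
  by_cases hne : Y.Nonempty
  · obtain ⟨r, hr, hfin, hc, hd⟩ := exists_random_retraction hY hne
    have hinj : Function.Injective (j Y) := fun v w hvw => by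
      rw [← L_j hr 0 v, ← L_j hr 0 w, hvw]
    have hcont : Continuous (j Y) := continuous_lift (continuous_ι.comp continuous_subtype_val)
    refine ⟨?_, hinj⟩
    rw [IsTopologicalAddGroup.isInducing_iff_nhds_zero]
    apply le_antisymm
    · rw [← Filter.tendsto_iff_comap]
      have := hcont.tendsto 0
      rwa [map_zero] at this
    · intro U hU
      rw [Filter.mem_comap]
      refine ⟨N r U 1, N_mem_nhds hr hfin hc hd hU one_pos, fun v hv => ?_⟩
      by_contra hvU
      have h1 : volume {t | t ∈ Ico (0 : ℝ) 1 ∧ L r t (j Y v) ∉ U} < 1 := hv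
      have h2 : {t | t ∈ Ico (0 : ℝ) 1 ∧ L r t (j Y v) ∉ U} = Ico (0 : ℝ) 1 := by
        ext t
        simp only [mem_ofPred_eq, and_iff_left_iff_imp]
        intro _
        rw [L_j hr]
        exact hvU
      rw [h2, Real.volume_Ico] at h1
      norm_num at h1
  · have : IsEmpty Y := by
      rw [not_nonempty_iff_eq_empty] at hne
      subst hne
      infer_instance
    have hs : Subsingleton (V Y) := by
      refine ⟨fun v w => ?_⟩
      exact (Finsupp.ext fun y => isEmptyElim y :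
        (show Y →₀ ℝ from v) = (show Y →₀ ℝ from w))
    exact ⟨⟨Subsingleton.elim _ _⟩, Function.injective_of_subsingleton _⟩

/-- **MP_aab88c_gt, Q1 and Q2 (yes).** Let `X` be a metrizable space and `Y` a closed subset. Then
the linear map `V Y → V X` induced by the inclusion is a topological embedding. -/
theorem result {X : Type u} [TopologicalSpace X] [TopologicalSpace.MetrizableSpace X] {Y : Set X}
    (hY : IsClosed Y) :
    ∃ T : V Y →ₗ[ℝ] V X, (∀ y : Y, T (ι y) = ι (y : X)) ∧ IsEmbedding T := by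
  letI : MetricSpace X := TopologicalSpace.metrizableSpaceMetric X
  exact ⟨j Y, fun y => lift_ι _ y, isEmbedding_j hY⟩

end Pool.Agent.Results.MP_aab88c_gt.SubspaceEmbedding
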